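import Mathlib

/-!
# The strict lower bound for the maximal height of the divisors of `x ^ (p q ^ b) - 1`

For odd primes `p < q` and `b ≥ 3` the divisor
`f = Φ_p(x) Φ_q(x) Φ_{p q²}(x) Φ_{q³}(x)` of `x ^ (p q ^ b) - 1` has height at least
`p (p + 1) / 2 > p`.

Write `A = Φ_p Φ_q` and `W = Φ_{p q} Φ_{q²}`. Then `f(x) = A(x) W(x ^ q)`, and the coefficient of
`f` at `q j + p - 1` is `p` times the coefficient of `W` at `j`. Moreover
`(x ^ p - 1) W(x) = (x - 1) A(x ^ q)`, so that the coefficients of `W` at `q (p - 1)` and at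
`q (p - 1) - p` differ by `p`.
-/

set_option autoImplicit false

namespace Pool.Agent.Results.MP_7a0dfe_nt.StrictLowerBound

open Polynomial

/-- The height of an integral polynomial: the maximum of the absolute values of its coefficients. -/
noncomputable def height (f : ℤ[X]) : ℕ := f.support.sup fun k => (f.coeff k).natAbs

/-- The heights of the divisors of `x ^ n - 1` in `ℤ[x]`. -/
def heights (n : ℕ) : Set ℕ := {h | ∃ f : ℤ[X], f ∣ X ^ n - 1 ∧ height f = h}

/-- `B(n)`: the maximum of the heights of the divisors of `x ^ n - 1` in `ℤ[x]`. -/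
noncomputable def B (n : ℕ) : ℕ := sSup (heights n)

lemma coeff_le_height (f : ℤ[X]) (k : ℕ) : (f.coeff k).natAbs ≤ height f := by
  by_cases hk : k ∈ f.support
  · exact Finset.le_sup (f := fun k => (f.coeff k).natAbs) hk
  · rw [notMem_support_iff] at hk
    rw [hk]
    exact Nat.zero_le _

lemma heights_finite {n : ℕ} (hn : 0 < n) : (heights n).Finite := by
  have h0 : (X ^ n - 1 : ℤ[X]) ≠ 0 := by
    have := X_pow_sub_C_ne_zero hn (1 : ℤ)
    rwa [map_one] at this
  have hU : Fintype (ℤ[X])ˣ := by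
    have : Finite (ℤ[X])ˣ := by
      apply Finite.of_injective (β := ℤˣ)
        (fun u => Units.map (constantCoeff (R := ℤ)).toMonoidHom u)
      intro u v huv
      apply Units.ext
      have hu := eq_C_of_degree_eq_zero (degree_eq_zero_of_isUnit u.isUnit)
      have hv := eq_C_of_degree_eq_zero (degree_eq_zero_of_isUnit v.isUnit)
      have h1 := congrArg (fun w : ℤˣ => (w : ℤ)) huv
      simp only [Units.coe_map] at h1
      have h2 : (u : ℤ[X]).coeff 0 = (v : ℤ[X]).coeff 0 := h1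
      rw [hu, hv, h2]
    exact Fintype.ofFinite _
  have hfin : Finite {f : ℤ[X] // f ∣ X ^ n - 1} :=
    @Finite.of_fintype _ (UniqueFactorizationMonoid.fintypeSubtypeDvd (X ^ n - 1 : ℤ[X]) h0)
  have hset : {f : ℤ[X] | f ∣ X ^ n - 1}.Finite := Set.finite_coe_iff.1 hfin
  exact (hset.image height).subset (by
    rintro h ⟨f, hf, rfl⟩
    exact ⟨f, hf, rfl⟩)

lemma isGreatest_B {n : ℕ} (hn : 0 < n) : IsGreatest (heights n) (B n) := by
  have hne : (heights n).Nonempty := ⟨height 1, 1, one_dvd _, rfl⟩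
  exact ⟨Nat.sSup_mem hne (heights_finite hn).bddAbove,
    fun h hh => le_csSup (heights_finite hn).bddAbove hh⟩

/-- `Φ_p Φ_q` -/
noncomputable def A (p q : ℕ) : ℤ[X] := cyclotomic p ℤ * cyclotomic q ℤ

/-- `Φ_{p q} Φ_{q²}` -/
noncomputable def W (p q : ℕ) : ℤ[X] := cyclotomic (p * q) ℤ * cyclotomic (q ^ 2) ℤ

section main

variable {p q : ℕ}

lemma cyc_coeff (hp : p.Prime) (i : ℕ) : (cyclotomic p ℤ).coeff i = if i < p then 1 else 0 := by
  have : Fact p.Prime := ⟨hp⟩
  rw [cyclotomic_prime, finsetSum_coeff]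
  simp only [coeff_X_pow]
  rw [Finset.sum_ite_eq]
  simp

lemma A_coeff_zero (hp : p.Prime) (hq : q.Prime) {n : ℕ} (hn : p + q ≤ n + 1) :
    (A p q).coeff n = 0 := by
  rw [A, coeff_mul]
  apply Finset.sum_eq_zero
  rintro ⟨a, b⟩ hab
  rw [Finset.HasAntidiagonal.mem_antidiagonal] at hab
  dsimp only at hab ⊢
  rw [cyc_coeff hp, cyc_coeff hq]
  split_ifs with h1 h2
  · omega
  all_goals simp

lemma A_coeff_mid (hp : p.Prime) (hq : q.Prime) (hpq : p < q) : (A p q).coeff (p - 1) = p := by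
  rw [A, coeff_mul]
  have h1 : ∀ x ∈ Finset.HasAntidiagonal.antidiagonal (p - 1),
      (cyclotomic p ℤ).coeff x.1 * (cyclotomic q ℤ).coeff x.2 = 1 := by
    rintro ⟨a, b⟩ hab
    rw [Finset.HasAntidiagonal.mem_antidiagonal] at hab
    dsimp only at hab ⊢
    have := hp.two_le
    rw [cyc_coeff hp, cyc_coeff hq, if_pos (by omega), if_pos (by omega), one_mul]
  rw [Finset.sum_congr rfl h1, Finset.sum_const, Finset.Nat.card_antidiagonal, nsmul_eq_mul,
    mul_one, Nat.sub_add_cancel hp.one_lt.le]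

lemma W_eq (hp : p.Prime) (hq : q.Prime) (hpq : p < q) :
    (X ^ p - 1) * W p q = (X - 1) * expand ℤ q (A p q) := by
  have h1 : expand ℤ q (cyclotomic p ℤ) = cyclotomic (p * q) ℤ * cyclotomic p ℤ :=
    cyclotomic_expand_eq_cyclotomic_mul hq (fun h => by
      have := (Nat.prime_dvd_prime_iff_eq hq hp).1 h
      omega) ℤ
  have h2 : expand ℤ q (cyclotomic q ℤ) = cyclotomic (q ^ 2) ℤ := by
    rw [sq]
    exact cyclotomic_expand_eq_cyclotomic hq dvd_rfl ℤ
  have h3 : (X - 1 : ℤ[X]) * cyclotomic p ℤ = X ^ p - 1 := by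
    have : Fact p.Prime := ⟨hp⟩
    rw [mul_comm]
    exact cyclotomic_prime_mul_X_sub_one ℤ p
  rw [W, A, map_mul, h1, h2, ← h3]
  ring

lemma W_diff (hp : p.Prime) (hq : q.Prime) (hpq : p < q) (hp2 : 3 ≤ p) :
    (W p q).coeff (q * (p - 1)) - (W p q).coeff (q * (p - 1) - p) = p := by
  have h := congrArg (fun f : ℤ[X] => f.coeff (q * (p - 1))) (W_eq hp hq hpq)
  simp only [sub_mul, one_mul, coeff_sub] at h
  have hqp : p ≤ q * (p - 1) := by
    calc p ≤ q := hpq.le
      _ = q * 1 := (mul_one q).symm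
      _ ≤ q * (p - 1) := Nat.mul_le_mul_left q (by omega)
  have e1 : (X ^ p * W p q).coeff (q * (p - 1)) = (W p q).coeff (q * (p - 1) - p) := by
    rw [coeff_X_pow_mul', if_pos hqp]
  have e2 : (X * expand ℤ q (A p q)).coeff (q * (p - 1)) = 0 := by
    obtain ⟨m, hm⟩ : ∃ m, q * (p - 1) = m + 1 := ⟨q * (p - 1) - 1, by omega⟩
    rw [hm, coeff_X_mul, coeff_expand hq.pos, if_neg]
    intro hd
    have h1 : q ∣ 1 := by
      have h2 : q ∣ m + 1 := hm ▸ dvd_mul_right q (p - 1)
      exact (Nat.dvd_add_right hd).1 h2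
    have := Nat.le_of_dvd one_pos h1
    omega
  have e3 : (expand ℤ q (A p q)).coeff (q * (p - 1)) = p := by
    rw [mul_comm, coeff_expand_mul hq.pos, A_coeff_mid hp hq hpq]
  rw [e1, e2, e3] at h
  linarith

/-- the coefficients of `f(x) = A(x) W(x ^ q)` -/
lemma f_coeff (hp : p.Prime) (hq : q.Prime) (hpq : p < q) (j : ℕ) :
    (A p q * expand ℤ q (W p q)).coeff (q * j + (p - 1)) = p * (W p q).coeff j := by
  rw [coeff_mul, Finset.sum_eq_single (p - 1, q * j)]
  · dsimp only
    rw [A_coeff_mid hp hq hpq, mul_comm q j, coeff_expand_mul hq.pos]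
  · rintro ⟨a, b⟩ hab hne
    rw [Finset.HasAntidiagonal.mem_antidiagonal] at hab
    dsimp only at hab ⊢
    rw [coeff_expand hq.pos]
    split_ifs with hd
    · obtain ⟨l, rfl⟩ := hd
      have hpos := hp.two_le
      have hlj : l ≤ j := by
        by_contra hcon
        push Not at hcon
        have h1 : q * (j + 1) ≤ q * l := Nat.mul_le_mul_left q hcon
        have h2 : q * (j + 1) = q * j + q := by ring
        omega
      rcases Nat.eq_or_lt_of_le hlj with h | h
      · exfalso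
        apply hne
        subst h
        rw [Prod.mk.injEq]
        exact ⟨by omega, rfl⟩
      · have h1 : q * (l + 1) ≤ q * j := Nat.mul_le_mul_left q h
        have h2 : q * (l + 1) = q * l + q := by ring
        rw [A_coeff_zero hp hq (by omega), zero_mul]
    · rw [mul_zero]
  · intro h
    exfalso
    apply h
    rw [Finset.HasAntidiagonal.mem_antidiagonal]
    dsimp only
    omega

lemma f_dvd (hp : p.Prime) (hq : q.Prime) (hpq : p < q) {b : ℕ} (hb : 3 ≤ b) :
    A p q * expand ℤ q (W p q) ∣ X ^ (p * q ^ b) - 1 := by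
  have e1 : expand ℤ q (cyclotomic (p * q) ℤ) = cyclotomic (p * q * q) ℤ :=
    cyclotomic_expand_eq_cyclotomic hq (dvd_mul_left q p) ℤ
  have e2 : expand ℤ q (cyclotomic (q ^ 2) ℤ) = cyclotomic (q ^ 2 * q) ℤ :=
    cyclotomic_expand_eq_cyclotomic hq (dvd_pow_self q two_ne_zero) ℤ
  have hqb : 0 < q ^ b := pow_pos hq.pos b
  have hn : 0 < p * q ^ b := Nat.mul_pos hp.pos hqb
  rw [← prod_cyclotomic_eq_X_pow_sub_one hn ℤ, A, W, map_mul, e1, e2]
  have hp2 := hp.two_le
  have hq2 := hq.two_le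
  have h1 : q < p * q * q := by
    have h7 : 2 ≤ p * q := le_trans hq2 (Nat.le_mul_of_pos_left q hp.pos)
    have h8 : 2 * q ≤ p * q * q := Nat.mul_le_mul_right q h7
    omega
  have h2 : q < q ^ 2 * q := by
    have h7 : 2 ≤ q ^ 2 := le_trans hq2 (Nat.le_self_pow two_ne_zero q)
    have h8 : 2 * q ≤ q ^ 2 * q := Nat.mul_le_mul_right q h7
    omega
  have h3 : p < p * q * q := hpq.trans h1
  have h4 : p ≠ q ^ 2 * q := (hpq.trans h2).ne
  have h5 : p * q * q ≠ q ^ 2 * q := by
    intro h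
    have h6 : p * (q * q) = q * (q * q) := by rw [← mul_assoc, h]; ring
    have := Nat.eq_of_mul_eq_mul_right (Nat.mul_pos hq.pos hq.pos) h6
    omega
  have hS : ({p, q, p * q * q, q ^ 2 * q} : Finset ℕ) ⊆ (p * q ^ b).divisors := by
    intro d hd
    rw [Nat.mem_divisors]
    refine ⟨?_, hn.ne'⟩
    simp only [Finset.mem_insert, Finset.mem_singleton] at hd
    obtain ⟨c, rfl⟩ : ∃ c, b = c + 3 := ⟨b - 3, by omega⟩
    rcases hd with rfl | rfl | rfl | rfl
    · exact dvd_mul_right _ _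
    · exact Dvd.intro_left (p * d ^ (c + 2)) (by ring)
    · exact ⟨q ^ (c + 1), by ring⟩
    · exact ⟨p * q ^ c, by ring⟩
  have h6 := Finset.prod_dvd_prod_of_subset _ _ (fun i => cyclotomic i ℤ) hS
  rw [Finset.prod_insert, Finset.prod_insert, Finset.prod_insert, Finset.prod_singleton] at h6
  · rw [mul_assoc]
    exact h6
  · rw [Finset.mem_singleton]
    exact h5
  · simp only [Finset.mem_insert, Finset.mem_singleton, not_or]
    exact ⟨h1.ne, h2.ne⟩
  · simp only [Finset.mem_insert, Finset.mem_singleton, not_or]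
    exact ⟨hpq.ne, h3.ne, h4⟩

end main

/-- `B(n)` is the maximum of the heights of the divisors of `x ^ n - 1` in `ℤ[x]`, and for all odd
primes `p < q` and all `b > 2` we have `B(p q ^ b) ≥ p (p + 1) / 2`, so that `B(p q ^ b) > p`. -/
theorem result : (∀ n : ℕ, 0 < n → IsGreatest (heights n) (B n)) ∧
    ∀ p q : ℕ, p.Prime → q.Prime → Odd p → Odd q → p < q → ∀ b : ℕ, 2 < b →
      p * (p + 1) ≤ 2 * B (p * q ^ b) ∧ p < B (p * q ^ b) := by
  refine ⟨fun n hn => isGreatest_B hn, fun p q hp hq hpo hqo hpq b hb => ?_⟩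
  have hp3 : 3 ≤ p := by
    have := hp.two_le
    obtain ⟨m, hm⟩ := hpo
    omega
  have hn : 0 < p * q ^ b := Nat.mul_pos hp.pos (pow_pos hq.pos b)
  have hB : height (A p q * expand ℤ q (W p q)) ≤ B (p * q ^ b) :=
    (isGreatest_B hn).2 ⟨_, f_dvd hp hq hpq hb, rfl⟩
  have hd := W_diff hp hq hpq hp3
  have h1 := (coeff_le_height _ _).trans hB (a := ((A p q * expand ℤ q (W p q)).coeff
    (q * (q * (p - 1)) + (p - 1))).natAbs)
  have h2 := (coeff_le_height _ _).trans hB (a := ((A p q * expand ℤ q (W p q)).coeff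
    (q * (q * (p - 1) - p) + (p - 1))).natAbs)
  rw [f_coeff hp hq hpq, Int.natAbs_mul, Int.natAbs_natCast] at h1 h2
  set x := (W p q).coeff (q * (p - 1))
  set y := (W p q).coeff (q * (p - 1) - p)
  obtain ⟨m, hm⟩ := hpo
  have h3 : m + 1 ≤ x.natAbs ∨ m + 1 ≤ y.natAbs := by omega
  have h4 : p * (m + 1) ≤ B (p * q ^ b) := by
    rcases h3 with h | h
    · exact (Nat.mul_le_mul_left p h).trans h1
    · exact (Nat.mul_le_mul_left p h).trans h2
  constructor
  · calc p * (p + 1) = 2 * (p * (m + 1)) := by rw [hm]; ring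
      _ ≤ 2 * B (p * q ^ b) := Nat.mul_le_mul_left 2 h4
  · have h5 : p * 2 ≤ p * (m + 1) := Nat.mul_le_mul_left p (by omega)
    omega

end Pool.Agent.Results.MP_7a0dfe_nt.StrictLowerBound
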